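import Pool.Agent.Helper67.KPG.St2

/-! Project KP, chapter G, module INV: the rational inverse of the chart. -/

set_option autoImplicit false

namespace Pool.Agent.Helper53.KPG

open Pool.Agent.Helper67.NO Pool.Agent.Helper52.KP Pool.Agent.Helper67.KPG

universe u

variable {g : Type u} [LieRing g] [LieAlgebra ℂ g] [FiniteDimensional ℂ g]

/-- translation of a polynomial map -/
private lemma poly_shift (ν : g → g)
    (hν : ∀ i, ∃ P : MvPolynomial (Fin (Module.finrank ℂ g)) ℂ, ∀ x, co (ν x) i = pev P x) (h : g) :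
    ∀ i, ∃ P : MvPolynomial (Fin (Module.finrank ℂ g)) ℂ, ∀ x, co (ν (x - h)) i = pev P x := by
  intro i
  obtain ⟨P, hP⟩ := hν i
  refine ⟨MvPolynomial.bind₁ (fun j => MvPolynomial.X j - MvPolynomial.C (co h j)) P, fun x => ?_⟩
  rw [hP]
  unfold pev
  have key : ∀ (c : Fin (Module.finrank ℂ g) → ℂ)
      (F : Fin (Module.finrank ℂ g) → MvPolynomial (Fin (Module.finrank ℂ g)) ℂ),
      MvPolynomial.eval c (MvPolynomial.bind₁ F P) =
        MvPolynomial.eval (fun j => MvPolynomial.eval c (F j)) P := fun c F =>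
    MvPolynomial.eval₂Hom_bind₁ (RingHom.id ℂ) c F P
  rw [key]
  refine congrArg (fun v => MvPolynomial.eval v P) ?_
  funext j
  simp only [map_sub, MvPolynomial.eval_X, MvPolynomial.eval_C]
  rfl

omit [FiniteDimensional ℂ g] in
private lemma ad_smul_pow (c : ℂ) (u x : g) (i : ℕ) :
    ((LieAlgebra.ad ℂ g (c • u) : Module.End ℂ g) ^ i) x =
      c ^ i • ((LieAlgebra.ad ℂ g u : Module.End ℂ g) ^ i) x := by
  rw [map_smul, smul_pow]
  rfl

/-- the value of `exp (-u)` -/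
private lemma exp_neg_ser (G : GPs g) {e h f : g} {N : ℕ} {pr : ℤ → g →ₗ[ℂ] g}
    (F : SlF e h f N pr) (u : g) (hu : u ∈ le pr (-1)) (x : g) :
    expAd (-u) x = ∑ i ∈ Finset.range (2 * N + 1), ((-1 : ℂ) ^ i * (i.factorial : ℂ)⁻¹) •
      ((LieAlgebra.ad ℂ g u : Module.End ℂ g) ^ i) x := by
  have hn : -u ∈ le pr (-1) := Submodule.neg_mem _ hu
  rw [G.ser (-u) x (2 * N + 1) (F.nil0 (-u) hn x)]
  refine Finset.sum_congr rfl fun i _ => ?_
  have : -u = (-1 : ℂ) • u := by simp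
  rw [this, ad_smul_pow, smul_smul, mul_comm]

/-- the two maps -/
private lemma maps {e h f : g} {N : ℕ} {pr : ℤ → g →ₗ[ℂ] g} (G : GPs g)
    (F : SlF e h f N pr) (b : ℕ) (τ : ℂ) (u x W : g) (hu : u ∈ le pr (-1))
    (hW : W = τ ^ b • u) :
    τ ^ (2 * N * b - b) • W = τ ^ (2 * N * b) • u ∧
    ∑ i ∈ Finset.range (2 * N + 1), ((-1 : ℂ) ^ i * (i.factorial : ℂ)⁻¹ *
      τ ^ (2 * N * b - i * b)) • ((LieAlgebra.ad ℂ g W : Module.End ℂ g) ^ i) x =
      τ ^ (2 * N * b) • expAd (-u) x := by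
  have hN := F.N2
  constructor
  · rw [hW, smul_smul, ← pow_add]
    congr 2
    have : b ≤ 2 * N * b := Nat.le_mul_of_pos_left b (by omega)
    omega
  · rw [exp_neg_ser G F u hu x, Finset.smul_sum]
    refine Finset.sum_congr rfl fun i hi => ?_
    rw [hW, ad_smul_pow, smul_smul, smul_smul]
    congr 1
    have hi' : i ≤ 2 * N := by
      have := Finset.mem_range.1 hi
      omega
    have hle : i * b ≤ 2 * N * b := Nat.mul_le_mul_right b hi'
    have : τ ^ (2 * N * b) = τ ^ (2 * N * b - i * b) * (τ ^ b) ^ i := by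
      rw [← pow_mul, ← pow_add]
      congr 1
      rw [mul_comm b i]
      omega
    rw [this]
    ring

/-- Module INV. -/
theorem hINV (hTRA : StTRA.{u}) (hHMG : StHMG.{u}) (hNUN : StNUN.{u}) (hOPP : StOPP.{u})
    (hHPC : StHPC.{u}) (hBAS : StBAS.{u}) (hGPF : StGPF.{u}) : StINV.{u} := by
  intro g _ _ _ e h f N pr hS
  have F := hBAS g e h f N pr hS
  have G := hGPF g
  have H := hHPC g
  have hN := F.N2
  obtain ⟨k0, t0, T0, hk0, ht0, hT0, ht0e, hA0⟩ := hTRA g e h f N pr hS 0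
  obtain ⟨k2, t2, T2, hk2, ht2, hT2, ht2e, hA2⟩ := hTRA g e h f N pr hS 2
  obtain ⟨ν, hνp, hν⟩ := hNUN g e h f N pr hS
  obtain ⟨b0, hb0⟩ := hHMG g (fun x => ν (x - h)) (poly_shift ν hνp h)
  have hz1 : (0 : ℤ) - 1 = -1 := by norm_num
  have hz2 : (2 : ℤ) - 1 = 1 := by norm_num
  rw [hz1] at hA0
  rw [hz2] at hA2
  set b := b0 + 1 with hb
  set t : g → ℂ := fun x => t0 x * t2 x with ht
  set V : g → g := fun x => t2 x • T0 x h with hV
  have htP : HP (k0 + k2) t := H.mul k0 k2 t0 t2 ht0 ht2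
  have hVV : HV (k0 + k2) V := by
    have := H.vsmul k2 k0 t2 (fun x => T0 x h) ht2 (hT0 h)
    rw [add_comm k2 k0] at this
    exact this
  obtain ⟨W, hWV, hW⟩ := hb0 b (by omega) (k0 + k2) t V htP hVV
  have hba : b ≤ 2 * N * b := Nat.le_mul_of_pos_left b (by omega)
  -- the value of `W`
  have hWx : ∀ x, t x ≠ 0 → W x = t x ^ b • ν ((t0 x)⁻¹ • T0 x h - h) := by
    intro x hx
    have h0 : t0 x ≠ 0 := left_ne_zero_of_mul hx
    have h2 : t2 x ≠ 0 := right_ne_zero_of_mul hx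
    rw [hW x hx]
    congr 2
    simp only [hV, ht]
    rw [smul_smul]
    congr 2
    field_simp
  -- common part
  have hcom : ∀ w, GP (⊤ : Submodule ℂ g) w → t (w e) ≠ 0 → ∃ y₀ ∈ ge pr 0,
      T0 (w e) h = w y₀ ∧ (t0 (w e))⁻¹ • T0 (w e) h - h ∈ le pr (-1) ∧ t0 (w e) ≠ 0 ∧
        t2 (w e) ≠ 0 := by
    intro w hw hx
    have h0 : t0 (w e) ≠ 0 := left_ne_zero_of_mul hx
    have h2 : t2 (w e) ≠ 0 := right_ne_zero_of_mul hx
    obtain ⟨y₀, hy₀, hy1, hy2⟩ := (hA0 w hw h0).2 h F.h0.1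
    refine ⟨y₀, hy₀, hy1, ?_, h0, h2⟩
    have : (t0 (w e))⁻¹ • T0 (w e) h - h =
        (t0 (w e))⁻¹ • (T0 (w e) h - t0 (w e) • h) := by
      rw [smul_sub, smul_smul, inv_mul_cancel₀ h0, one_smul]
    rw [this]
    exact Submodule.smul_mem _ _ hy2
  refine ⟨k0 + k2, 2 * N * b, t, fun x => t x ^ (2 * N * b - b) • W x,
    fun x => ∑ i ∈ Finset.range (2 * N + 1), ((-1 : ℂ) ^ i * (i.factorial : ℂ)⁻¹ *
      t x ^ (2 * N * b - i * b)) • ((LieAlgebra.ad ℂ g (W x) : Module.End ℂ g) ^ i) x,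
    by omega, htP, ?_, ?_, mul_ne_zero ht0e ht2e, ?_, ?_⟩
  · have h1 := H.vsmul ((2 * N * b - b) * (k0 + k2)) (b * (k0 + k2)) (fun x => t x ^ (2 * N * b - b))
      W (H.pow (k0 + k2) (2 * N * b - b) t htP) hWV
    rw [← add_mul, Nat.sub_add_cancel hba] at h1
    exact h1
  · refine H.vsum ℕ _ _ _ fun i hi => ?_
    have hi' : i ≤ 2 * N := by
      have := Finset.mem_range.1 hi
      omega
    have hle : i * b ≤ 2 * N * b := Nat.mul_le_mul_right b hi'
    have h1 := H.smul ((2 * N * b - i * b) * (k0 + k2)) ((-1 : ℂ) ^ i * (i.factorial : ℂ)⁻¹)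
      (fun x => t x ^ (2 * N * b - i * b)) (H.pow (k0 + k2) (2 * N * b - i * b) t htP)
    have h2 := H.lpow (b * (k0 + k2)) i _ (H.lad (b * (k0 + k2)) W hWV)
    have h3 := H.lapp _ 1 _ (fun x : g => x) h2 H.vid
    have h4 := H.vsmul _ _ _ _ h1 h3
    have e1 : (2 * N * b - i * b) * (k0 + k2) + (i * (b * (k0 + k2)) + 1) =
        2 * N * b * (k0 + k2) + 1 := by
      rw [← add_assoc, ← mul_assoc, ← add_mul, Nat.sub_add_cancel hle]
    rw [e1] at h4
    exact h4
  · intro w hw hx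
    obtain ⟨y₀, hy₀, hy1, hn, h0, h2⟩ := hcom w hw hx
    set x := w e with hxdef
    set n := (t0 x)⁻¹ • T0 x h - h with hndef
    obtain ⟨hu, hue, -⟩ := hν n hn
    set u := ν n with hudef
    have hhn : h + n = w ((t0 x)⁻¹ • y₀) := by
      rw [hndef, map_smul, ← hy1]
      abel
    have hw' : GP (⊤ : Submodule ℂ g) (expAd (-u) ∘ₗ w) := GP.step w (-u) hw trivial
    have hh' : (expAd (-u) ∘ₗ w) ((t0 x)⁻¹ • y₀) = h := by
      rw [LinearMap.comp_apply, ← hhn, ← hue]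
      exact (G.neg u h).1
    have hop := hOPP g e h f N pr hS (expAd (-u) ∘ₗ w) hw'
      ⟨(t0 x)⁻¹ • y₀, Submodule.smul_mem _ _ hy₀, hh'⟩ (fun y hy hy' => by
        refine (hA2 w hw h2).1 y hy ?_
        have h3 : w y = expAd u ((expAd (-u) ∘ₗ w) y) := by
          rw [LinearMap.comp_apply]
          exact ((G.neg u (w y)).2).symm
        rw [h3]
        refine G.sub (le pr (-1)) (le pr 1) (fun v hv z hz => ?_) (expAd u) (G.exp _ u hu) _ hy'
        exact F.lemono _ 1 (by norm_num) (F.brle (-1) 1 v z hv hz))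
    have hey := hop e F.e2.1
    obtain ⟨m1, m2⟩ := maps G F b (t x) u x (W x) hu (hWx x hx)
    refine ⟨u, hu, (expAd (-u) ∘ₗ w) e, hey, ?_, m1, m2⟩
    rw [LinearMap.comp_apply]
    exact (G.neg u (w e)).2
  · intro u hu b' hb' hx
    have hbT : GP (⊤ : Submodule ℂ g) b' := G.mono _ _ le_top _ hb'
    have hw : GP (⊤ : Submodule ℂ g) (expAd u ∘ₗ b') := GP.step b' u hbT trivial
    obtain ⟨y₀, hy₀, hy1, hn, h0, h2⟩ := hcom (expAd u ∘ₗ b') hw hx
    have hxe : (expAd u ∘ₗ b') e = expAd u (b' e) := rfl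
    rw [hxe] at hy1 hn h0 h2
    set x := expAd u (b' e) with hxdef
    set n := (t0 x)⁻¹ • T0 x h - h with hndef
    set c := (t0 x)⁻¹ • b' y₀ with hcdef
    have hcge : c ∈ ge pr 0 := by
      refine Submodule.smul_mem _ _ (G.sub (ge pr 0) (ge pr 0) (fun v hv z hz => ?_) b' hb' _ hy₀)
      have := F.brge 0 0 v z hv hz
      rwa [add_zero] at this
    have hce : expAd u c = h + n := by
      rw [hcdef, map_smul, hndef]
      have : expAd u (b' y₀) = T0 x h := hy1.symm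
      rw [this]
      abel
    have hc' : c = expAd (-u) h + expAd (-u) n := by
      rw [← map_add, ← hce]
      exact ((G.neg u c).1).symm
    have hnu : -u ∈ le pr (-1) := Submodule.neg_mem _ hu
    have h3 : expAd (-u) n ∈ le pr (-1) := by
      refine G.sub (le pr (-1)) (le pr (-1)) (fun v hv z hz => ?_) (expAd (-u))
        (G.exp _ (-u) hnu) _ hn
      exact F.lemono _ (-1) (by norm_num) (F.brle (-1) (-1) v z hv hz)
    have h4 : expAd (-u) h - h ∈ le pr (-1) := by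
      rw [G.ser (-u) h (2 * N + 1) (F.nil0 (-u) hnu h), Finset.sum_range_succ']
      have h5 : ((Nat.factorial 0 : ℂ)⁻¹) •
          ((LieAlgebra.ad ℂ g (-u) : Module.End ℂ g) ^ 0) h = h := by
        simp
      rw [h5, add_sub_cancel_right]
      refine Submodule.sum_mem _ fun i _ => Submodule.smul_mem _ _ ?_
      have h6 := F.nil (-u) hnu (i + 1) 0 h F.h0.2
      refine F.lemono _ (-1) ?_ h6
      push_cast
      omega
    have h7 : c - h ∈ le pr (-1) := by
      have : c - h = (expAd (-u) h - h) + expAd (-u) n := by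
        rw [hc']
        abel
      rw [this]
      exact Submodule.add_mem _ h4 h3
    have h8 : c - h ∈ ge pr 0 := Submodule.sub_mem _ hcge F.h0.1
    have h9 : c = h := by
      have hd := (F.cpl 0).disjoint
      rw [hz1] at hd
      have := Submodule.disjoint_def.1 hd (c - h) h8 h7
      exact sub_eq_zero.1 this
    rw [h9] at hce
    have h10 : u = ν n := (hν n hn).2.2 u hu hce
    have hWu : W x = t x ^ b • u := by
      rw [hWx x hx, ← hndef, ← h10]
    obtain ⟨m1, m2⟩ := maps G F b (t x) u x (W x) hu hWu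
    refine ⟨m1, ?_⟩
    have h11 : expAd (-u) x = b' e := (G.neg u (b' e)).1
    rw [h11] at m2
    exact m2

end Pool.Agent.Helper53.KPG
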